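import Pool.Agent.TH138.UD.U9

set_option autoImplicit false

/-!
# Potential density witnessed by a context-free family of points

A word `a₁ ⋯ a_m` in the letters of a finite alphabet `A` represents the vector
`affVec M ρ v (a₁ ⋯ a_m) = M ρ(a₁) ⋯ ρ(a_m) v`, where the `ρ(a)` are invertible `r × r` matrices,
`M` is a matrix with `r` columns and `v` a vector, over a number field `K`.

(1) Let `X = V(I)` be a closed subvariety of projective `n`-space over a number field `k`, with `I`
a homogeneous ideal of `k[x_0, …, x_n]` such that `I k̄[x_0, …, x_n]` is prime (`X` geometrically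
integral).  Equivalent are:

* `X` is unirational over `k̄`: the closure of the image of a polynomial map `[P_0 : … : P_n]` in
  some variables `t_1, …, t_s`;
* over some number field `K ⊇ k`, there is a Zariski dense family of `K`-points of `X` of the form
  `M B ^ m v`, `m = 0, 1, 2, …` (a linear recurrence sequence);
* over some number field `K ⊇ k`, there is a Zariski dense family of `K`-points of `X` represented
  by the words of a context-free language.

(2) In all cases the Zariski closure of a context-free family of vectors, over any algebraically
closed field `L ⊇ K`, is a finite union of closures of images of Laurent polynomial maps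
`(t_1, …, t_s) ↦ P(t_1, …, t_s, t_1⁻¹, …, t_s⁻¹)`.
-/

namespace Pool.Agent.Results.MP_9410e4_ag.ContextFreeDensity

open NumberField MvPolynomial Pool.Agent.TH138.LG Pool.Agent.TH138.UD

theorem result :
    (∀ (k : Type) [Field k] [NumberField k] (n : ℕ) (I : Ideal (MvPolynomial (Fin (n + 1)) k)),
      (∀ F ∈ I, ∀ d : ℕ, homogeneousComponent d F ∈ I) → (geom I).IsPrime →
      (Unirational (geom I) ↔ RecDense I) ∧ (Unirational (geom I) ↔ GrammarDense I)) ∧
    (∀ (K : Type) [Field K] [NumberField K] (L : Type) [Field L] [CharZero L] [IsAlgClosed L]
      (φ : K →+* L) (ι A : Type) [Finite A] (r : ℕ) (M : Matrix ι (Fin r) K)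
      (ρ : A → Matrix.GeneralLinearGroup (Fin r) K) (v : Fin r → K) (g : ContextFreeGrammar A),
      ToricClosure ((fun x i => φ (x i)) '' wordVecs M ρ v g.language)) :=
  ⟨fun _ _ _ _ I hhom hI => density' I hhom hI, fun K _ _ L _ _ _ φ ι A _ r M ρ v g =>
    closure' K L φ ι A r M ρ v g⟩

end Pool.Agent.Results.MP_9410e4_ag.ContextFreeDensity
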