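import Pool.Agent.TH377.Hyp.Smooth
import Pool.Agent.TH377.Hyp.Dens
import Pool.Agent.TH377.Dyn.Main
import Pool.Agent.TH377.Dyn.Box

/-!
# MP_9410e4_ag: hypersurfaces without points over all number fields of many degrees

Let `K` be a number field, `d, k ≥ 2`, `b ∈ O_K`, and let `F_0, …, F_{k-1}` be binary forms of degree
`d` over `O_K`.  In the projective space of dimension `2k - 1` with the homogeneous coordinates
`x_{j0}, x_{j1}` (`0 ≤ j < k`) we consider the hypersurfaces

  `X_G : F_0(x_{00}, x_{01}) + b F_1(x_{10}, x_{11}) + … + b^{k-1} F_{k-1}(x_{k-1,0}, x_{k-1,1}) + G = 0`,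

where `G` is ANY form of degree `d` over `O_K` whose coefficient at a monomial of weight `w` (the
variables `x_{j0}, x_{j1}` have weight `j`) is divisible by `b^(⌊w/d⌋ + 1)`.  For `b = 1` these are all
hypersurfaces of degree `d`, so the hypersurfaces `X_G` form a family that dominates the space of all
hypersurfaces of degree `d`; for `k = 2` they are the surfaces `F_0(x_{00}, x_{01}) + b H = 0` in
`P³` with an arbitrary form `H` of degree `d` such that `H(0, 0, x_{10}, x_{11}) = F_1`.

We prove: for 100% of the vectors `(b, F_0, …, F_{k-1})`, for ALL `G` and for ALL finite extensions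
`L` of `K` such that, for some prime number `l`,

  `k l^{v_l([L : K])} ≤ l^{v_l(d)}`,

the hypersurface `X_G` has no point over `L`.  For surfaces (`k = 2`) the condition is `d ∤ [L : K]`,
so that the degree of every closed point of the surface, and of each curve on it (for instance of its
plane sections), is divisible by `d`; and the condition is also `d ∤ [L : K]` in all dimensions if `d`
is a prime number and `k ≤ d`.  For `G = 0` the hypersurfaces are smooth, and they are of general type
if `d > 2k`, so not special.  In the question `special ⟺ potentially dense` this is the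
part `not special ⟹ X(L) not dense` for the infinitely many number fields `L` above, of unbounded
degree (and without any point over `L`); for the special varieties among the `X_G` (`d ≤ 2k`) it says
that points, and in particular potential density, appear only over the other fields `L`; the exceptional set of vectors does not depend on `G` or `L`.  It has density zero in boxes
(with respect to any integral basis), and in a stronger sense: for every `ε > 0` there is an ideal
`I ≠ 0` such that the exceptional vectors lie in at most `ε #(O_K/I)^(k(d+1)+1)` classes modulo `I`.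

Proof.  Let `v` be a prime of `K` that divides `b` exactly once, such that all `F_j` are irreducible of
degree `d` modulo `v`.  Because of `∑ e(w|v) f(w|v) = [L : K]` there is a place `w` of `L` above `v`
such that `l^{1 + v_l([L:K])}` does not divide `e(w|v) f(w|v)`.  Then `d ∤ f(w|v)`, so the forms `F_j`
have no zeros over the residue field of `w`, and `w(F_j(x, y)) = d min(w(x), w(y))`.  So the values of
the terms `b^j F_j` at a vector with coordinates in `L` are congruent to `j e(w|v)` modulo `d`, and
these are different for different `j` by the condition on `[L : K]`.  By the weights, the value of `G`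
is larger than the smallest of these values.  So the sum is not zero.  The prime `v` exists for almost
all vectors, because the conditions hold for a proportion of at least `(4d)^(-k) (1/N v - 1/(N v)²)`
of all vectors modulo `v²`, and the sum of the `1/N v` diverges.
-/

set_option autoImplicit false
set_option maxHeartbeats 400000

open NumberField Filter Topology

namespace Pool.Agent.Results.MP_9410e4_ag.DegreesOfPoints

universe u v w

/-- The coefficient of `x_{j0}^i x_{j1}^{d-i}` in `F_j`: the entry number `1 + j (d + 1) + i` of the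
vector `c`.  The entry number `0` is `b`. -/
def coef {R : Type u} {k d : ℕ} (c : Fin (k * (d + 1) + 1) → R) (j : Fin k) (i : Fin (d + 1)) : R :=
  c (finProdFinEquiv (j, i)).succ

/-- The form `∑_j b^j F_j(x_{j0}, x_{j1}) + G`. -/
noncomputable def form {R : Type u} [CommRing R] {k d : ℕ} (c : Fin (k * (d + 1) + 1) → R)
    (G : MvPolynomial (Fin k × Fin 2) R) : MvPolynomial (Fin k × Fin 2) R :=
  ∑ j : Fin k, MvPolynomial.C (c 0 ^ (j : ℕ)) * (∑ i : Fin (d + 1),
    MvPolynomial.C (coef c j i) * (MvPolynomial.X (j, 0) ^ (i : ℕ) *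
      MvPolynomial.X (j, 1) ^ (d - i))) + G

/-- The weight of a monomial: the variables `x_{j0}, x_{j1}` have weight `j`. -/
def weight {k : ℕ} (α : Fin k × Fin 2 →₀ ℕ) : ℕ := ∑ p, (p.1 : ℕ) * α p

/-- `G` is a form of degree `d` whose coefficient at every monomial of weight `w` is divisible by
`b^(⌊w/d⌋ + 1)`. -/
def Allowed {R : Type u} [CommRing R] (k d : ℕ) (b : R) (G : MvPolynomial (Fin k × Fin 2) R) :
    Prop :=
  G.IsHomogeneous d ∧ ∀ α, b ^ (weight α / d + 1) ∣ G.coeff α

/-- There is a prime number `l` with `k l^{v_l(n)} ≤ l^{v_l(d)}`. -/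
def Small (k d n : ℕ) : Prop :=
  ∃ l : ℕ, l.Prime ∧ k * l ^ padicValNat l n ≤ l ^ padicValNat l d

/-- The vectors `c = (b, F_0, …, F_{k-1})` that do not have the following property: `b ≠ 0`, the
hypersurface `∑_j b^j F_j = 0` is smooth, and for all allowed `G` and all finite extensions `L` of `K`
whose degree `n` satisfies `k l^{v_l(n)} ≤ l^{v_l(d)}` for a prime number `l`, the hypersurface
`∑_j b^j F_j + G = 0` has no point over `L`. -/
def Exceptional (K : Type u) [Field K] (k d : ℕ) : Set (Fin (k * (d + 1) + 1) → 𝓞 K) :=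
  {c | ¬ (c 0 ≠ 0 ∧
    (∀ x : Fin k × Fin 2 → AlgebraicClosure K, x ≠ 0 →
      ∃ p, MvPolynomial.aeval x (MvPolynomial.pderiv p (form c 0)) ≠ 0) ∧
    ∀ G : MvPolynomial (Fin k × Fin 2) (𝓞 K), Allowed k d (c 0) G →
      ∀ (L : Type v) [Field L] [Algebra K L] [FiniteDimensional K L],
        Small k d (Module.finrank K L) → ∀ x : Fin k × Fin 2 → L, x ≠ 0 →
          MvPolynomial.aeval x (form c G) ≠ 0)}

/-- Density zero: for every `ε > 0` there is an ideal `I ≠ 0` such that `E` lies in at most
`ε #(O_K/I)ᴺ` residue classes modulo `I`. -/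
def DensityZero {K : Type u} [Field K] {N : ℕ} (E : Set (Fin N → 𝓞 K)) : Prop :=
  ∀ ε : ℝ, 0 < ε → ∃ I : Ideal (𝓞 K), I ≠ ⊥ ∧
    (Set.ncard ((fun (t : Fin N → 𝓞 K) i => Ideal.Quotient.mk I (t i)) '' E) : ℝ) ≤
      ε * (Nat.card (𝓞 K ⧸ I) : ℝ) ^ N

/-- The vectors all of whose entries have coordinates of absolute value at most `H` in the integral
basis `ω`. -/
def Box {K : Type u} [Field K] {J : Type w} (ω : Module.Basis J ℤ (𝓞 K)) (N H : ℕ) :
    Set (Fin N → 𝓞 K) :=
  {c | ∀ i j, |ω.repr (c i) j| ≤ (H : ℤ)}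

section proof

open IsDedekindDomain Pool.Agent.TH377.Dyn Pool.Agent.TH377.Sup Pool.Agent.TH377.Hyp

/-- the polynomial of a block -/
noncomputable def bp {K : Type u} [Field K] {k d : ℕ} (c : Fin (k * (d + 1) + 1) → 𝓞 K)
    (j : Fin k) : Polynomial (𝓞 K) := pol fun i => coef c j i

lemma bp_facts {K : Type u} [Field K] [NumberField K] {k d : ℕ}
    (c : Fin (k * (d + 1) + 1) → 𝓞 K) (j : Fin k)
    (v : HeightOneSpectrum (𝓞 K)) (h : IrrMod v d fun i => coef c j i) :
    (bp c j).natDegree = d ∧ (bp c j).leadingCoeff ∉ v.asIdeal ∧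
      Irreducible ((bp c j).map (Ideal.Quotient.mk v.asIdeal)) := by
  have h0 : coef c j (Fin.last d) ≠ 0 := fun h0 => h.1 (by
    change coef c j (Fin.last d) ∈ v.asIdeal
    rw [h0]
    exact zero_mem _)
  refine ⟨pol_natDegree (fun i : Fin (d + 1) => coef c j i) h0, ?_, ?_⟩
  · rw [bp, pol_leadingCoeff (fun i : Fin (d + 1) => coef c j i) h0]
    exact h.1
  · rw [bp, pol_map]
    exact h.2

lemma bp_coeff {K : Type u} [Field K] {k d : ℕ} (c : Fin (k * (d + 1) + 1) → 𝓞 K)
    (j : Fin k) (i : Fin (d + 1)) : (bp c j).coeff i = coef c j i :=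
  pol_coeff (fun i : Fin (d + 1) => coef c j i) i

/-- the value of the form -/
lemma aeval_form {K : Type u} [Field K] {L : Type v} [Field L] [Algebra K L] {k d : ℕ}
    (c : Fin (k * (d + 1) + 1) → 𝓞 K) (G : MvPolynomial (Fin k × Fin 2) (𝓞 K))
    (x : Fin k × Fin 2 → L) :
    MvPolynomial.aeval x (form c G) = ∑ j : Fin k, (algebraMap (𝓞 K) L (c 0)) ^ (j : ℕ) *
      bin ((bp c j).map (algebraMap (𝓞 K) L)) d (x (j, 0)) (x (j, 1)) +
      MvPolynomial.eval x (MvPolynomial.map (algebraMap (𝓞 K) L) G) := by
  rw [form, map_add, MvPolynomial.eval_map, ← MvPolynomial.aeval_def]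
  congr 1
  rw [map_sum]
  refine Finset.sum_congr rfl fun j _ => ?_
  rw [map_mul, map_sum, MvPolynomial.aeval_C, map_pow, bin]
  congr 1
  refine Finset.sum_congr rfl fun i _ => ?_
  rw [map_mul, map_mul, map_pow, map_pow, MvPolynomial.aeval_C, MvPolynomial.aeval_X,
    MvPolynomial.aeval_X, Polynomial.coeff_map, bp_coeff]

/-- the first partial derivatives -/
lemma pderiv_zero {R : Type u} [CommRing R] {L : Type v} [Field L] [Algebra R L] {k d : ℕ}
    (c : Fin (k * (d + 1) + 1) → R) (x : Fin k × Fin 2 → L) (j : Fin k) :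
    MvPolynomial.aeval x (MvPolynomial.pderiv (j, 0) (form c 0)) =
      (algebraMap R L (c 0)) ^ (j : ℕ) * ∑ i : Fin (d + 1), algebraMap R L (coef c j i) *
        ((((i : ℕ) : L) * x (j, 0) ^ ((i : ℕ) - 1)) * x (j, 1) ^ (d - i)) := by
  classical
  rw [form, add_zero, map_sum, map_sum, Finset.sum_eq_single j]
  · rw [MvPolynomial.pderiv_C_mul, map_mul, MvPolynomial.aeval_C,
      map_pow, map_sum, map_sum]
    congr 1
    refine Finset.sum_congr rfl fun i _ => ?_
    rw [MvPolynomial.pderiv_C_mul, map_mul, MvPolynomial.aeval_C,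
      MvPolynomial.pderiv_mul, MvPolynomial.pderiv_pow, MvPolynomial.pderiv_pow,
      MvPolynomial.pderiv_X_self, MvPolynomial.pderiv_X_of_ne (by simp)]
    congr 1
    simp only [mul_one, mul_zero, add_zero, map_mul, map_natCast, map_pow, MvPolynomial.aeval_X]
  · intro j' _ hj'
    rw [MvPolynomial.pderiv_C_mul, map_sum, Finset.sum_eq_zero,
      mul_zero, map_zero]
    intro i _
    rw [MvPolynomial.pderiv_C_mul,
      MvPolynomial.pderiv_mul, MvPolynomial.pderiv_pow, MvPolynomial.pderiv_pow,
      MvPolynomial.pderiv_X_of_ne (by simp [hj']), MvPolynomial.pderiv_X_of_ne (by simp)]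
    simp
  · intro h
    exact absurd (Finset.mem_univ j) h

lemma pderiv_one {R : Type u} [CommRing R] {L : Type v} [Field L] [Algebra R L] {k d : ℕ}
    (c : Fin (k * (d + 1) + 1) → R) (x : Fin k × Fin 2 → L) (j : Fin k) :
    MvPolynomial.aeval x (MvPolynomial.pderiv (j, 1) (form c 0)) =
      (algebraMap R L (c 0)) ^ (j : ℕ) * ∑ i : Fin (d + 1), algebraMap R L (coef c j i) *
        (x (j, 0) ^ (i : ℕ) * (((d - i : ℕ) : L) * x (j, 1) ^ (d - i - 1))) := by
  classical
  rw [form, add_zero, map_sum, map_sum, Finset.sum_eq_single j]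
  · rw [MvPolynomial.pderiv_C_mul, map_mul, MvPolynomial.aeval_C,
      map_pow, map_sum, map_sum]
    congr 1
    refine Finset.sum_congr rfl fun i _ => ?_
    rw [MvPolynomial.pderiv_C_mul, map_mul, MvPolynomial.aeval_C,
      MvPolynomial.pderiv_mul, MvPolynomial.pderiv_pow, MvPolynomial.pderiv_pow,
      MvPolynomial.pderiv_X_self, MvPolynomial.pderiv_X_of_ne (by simp)]
    congr 1
    simp only [mul_one, mul_zero, zero_mul, zero_add, map_mul, map_natCast, map_pow,
      MvPolynomial.aeval_X]
  · intro j' _ hj'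
    rw [MvPolynomial.pderiv_C_mul, map_sum, Finset.sum_eq_zero,
      mul_zero, map_zero]
    intro i _
    rw [MvPolynomial.pderiv_C_mul,
      MvPolynomial.pderiv_mul, MvPolynomial.pderiv_pow, MvPolynomial.pderiv_pow,
      MvPolynomial.pderiv_X_of_ne (by simp), MvPolynomial.pderiv_X_of_ne (by simp [hj'])]
    simp
  · intro h
    exact absurd (Finset.mem_univ j) h

lemma good {K : Type u} [Field K] [NumberField K] {k d : ℕ} (hk : 2 ≤ k) (hd : 2 ≤ d)
    (c : Fin (k * (d + 1) + 1) → 𝓞 K) (v : HeightOneSpectrum (𝓞 K)) (hv : c 0 ∈ v.asIdeal)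
    (hv2 : c 0 ∉ v.asIdeal ^ 2) (h : ∀ j, IrrMod v d fun i => coef c j i) :
    c ∉ Exceptional.{u, v} K k d := by
  intro hc
  apply hc
  have h0 : c 0 ≠ 0 := by
    intro h0
    apply hv2
    rw [h0]
    exact zero_mem _
  refine ⟨h0, ?_, ?_⟩
  · intro x hx
    obtain ⟨p, hp⟩ : ∃ p, x p ≠ 0 := Function.ne_iff.1 hx
    obtain ⟨j, s⟩ := p
    obtain ⟨h1, h2, h3⟩ := bp_facts c j v (h j)
    have hinj : Function.Injective (algebraMap (𝓞 K) (AlgebraicClosure K)) :=
      FaithfulSMul.algebraMap_injective (𝓞 K) (AlgebraicClosure K)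
    have hirr := irr_of_mod v (bp c j) (by omega) h2 h3
    have hsep : ((bp c j).map (algebraMap (𝓞 K) (AlgebraicClosure K))).Separable := by
      have e1 : (bp c j).map (algebraMap (𝓞 K) (AlgebraicClosure K)) =
          ((bp c j).map (algebraMap (𝓞 K) K)).map (algebraMap K (AlgebraicClosure K)) := by
        rw [Polynomial.map_map, ← IsScalarTower.algebraMap_eq]
      rw [e1]
      exact (PerfectField.separable_of_irreducible hirr).map
    have hdeg : ((bp c j).map (algebraMap (𝓞 K) (AlgebraicClosure K))).natDegree = d := by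
      rw [Polynomial.natDegree_map_eq_of_injective hinj, h1]
    have hxy : x (j, 0) ≠ 0 ∨ x (j, 1) ≠ 0 := by
      fin_cases s
      · exact Or.inl hp
      · exact Or.inr hp
    have hb : (algebraMap (𝓞 K) (AlgebraicClosure K) (c 0)) ^ (j : ℕ) ≠ 0 :=
      pow_ne_zero _ (by rwa [Ne, map_eq_zero_iff _ hinj])
    rcases smooth_bin _ d (by omega) hdeg hsep _ _ hxy with h4 | h4
    · refine ⟨(j, 0), ?_⟩
      rw [pderiv_zero]
      refine mul_ne_zero hb ?_
      rw [d0] at h4
      simp only [Polynomial.coeff_map, bp_coeff] at h4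
      exact h4
    · refine ⟨(j, 1), ?_⟩
      rw [pderiv_one]
      refine mul_ne_zero hb ?_
      rw [d1] at h4
      simp only [Polynomial.coeff_map, bp_coeff] at h4
      exact h4
  · intro G hG L _ _ _ hL x hx
    have hNF : NumberField L := NumberField.of_module_finite K L
    have hinj : Function.Injective (algebraMap (𝓞 K) L) :=
      FaithfulSMul.algebraMap_injective (𝓞 K) L
    obtain ⟨q, hq1, hq2⟩ := exists_good_place (L := L) v k d hk hL
    rw [aeval_form]
    refine no_zero ((ovr v q).valuation L) k d (by omega)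
      (fun j => (bp c j).map (algebraMap (𝓞 K) L)) (fun j => coeff_le v q (bp c j)) ?_ ?_ ?_ _ ?_
      (val_lt_one v q (c 0) hv) ?_ _ (hG.1.map _) ?_ x hx
    · intro j
      obtain ⟨h1, h2, h3⟩ := bp_facts c j v (h j)
      rw [Polynomial.leadingCoeff_map_of_injective hinj]
      exact val_eq_one v q _ h2
    · intro j
      obtain ⟨h1, h2, h3⟩ := bp_facts c j v (h j)
      rw [Polynomial.natDegree_map_eq_of_injective hinj, h1]
    · intro j y hy
      obtain ⟨h1, h2, h3⟩ := bp_facts c j v (h j)
      by_contra h5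
      rw [not_le] at h5
      apply hq1
      rw [← h1]
      exact dvd_inertia v (ovr v q) (bp c j) h2 h3 y hy h5
    · rwa [Ne, map_eq_zero_iff _ hinj]
    · intro i hi hik t
      exact pow_ne v q (c 0) hv hv2 d (by omega) i (hq2 i hi hik) t
    · intro α
      obtain ⟨r, hr⟩ := hG.2 α
      rw [MvPolynomial.coeff_map, hr, map_mul, map_pow, map_mul, map_pow]
      refine mul_le_of_le_one_right zero_le ?_
      rw [IsScalarTower.algebraMap_apply (𝓞 K) (𝓞 L) L]
      exact (ovr v q).valuation_le_one _

lemma small_prime (k d n : ℕ) (hd : d.Prime) (hk : 2 ≤ k) (hkd : k ≤ d) (hn : 0 < n) :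
    Small k d n ↔ ¬ d ∣ n := by
  have hfact : Fact d.Prime := ⟨hd⟩
  constructor
  · rintro ⟨l, hl, h⟩ hdn
    have hfl : Fact l.Prime := ⟨hl⟩
    by_cases hld : l = d
    · subst hld
      rw [padicValNat_self, pow_one] at h
      have h1 : 1 ≤ padicValNat l n := one_le_padicValNat_of_dvd hn.ne' hdn
      have h2 : l ^ 1 ≤ l ^ padicValNat l n := Nat.pow_le_pow_right hl.pos h1
      have h3 := hl.two_le
      nlinarith
    · have h1 : padicValNat l d = 0 :=
        padicValNat.eq_zero_of_not_dvd fun h2 => hld ((Nat.prime_dvd_prime_iff_eq hl hd).1 h2)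
      rw [h1, pow_zero] at h
      have h3 : 0 < l ^ padicValNat l n := pow_pos hl.pos _
      nlinarith
  · intro h
    refine ⟨d, hd, ?_⟩
    rw [padicValNat.eq_zero_of_not_dvd h, padicValNat_self, pow_zero, pow_one, mul_one]
    exact hkd

end proof

/-- **Hypersurfaces without points over all number fields of many degrees.**  Let `K` be a number
field and `d, k ≥ 2`.  For all vectors `(b, F_0, …, F_{k-1})` of coefficients in `O_K` outside a set of
density zero, the hypersurface `∑_j b^j F_j(x_{j0}, x_{j1}) = 0` is smooth, and for all allowed forms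
`G` and all finite extensions `L` of `K` whose degree `n` satisfies `k l^{v_l(n)} ≤ l^{v_l(d)}` for a
prime number `l`, the hypersurface `∑_j b^j F_j(x_{j0}, x_{j1}) + G = 0` has no point over `L`.  The
condition on `n` is `d ∤ n` if `k = 2`, and also if `d` is a prime number and `k ≤ d`. -/
theorem result (K : Type u) [Field K] [NumberField K] (k d : ℕ) (hk : 2 ≤ k) (hd : 2 ≤ d) :
    (DensityZero (Exceptional.{u, v} K k d) ∧
      ∀ (J : Type w) [Fintype J] (ω : Module.Basis J ℤ (𝓞 K)),
        Tendsto (fun H : ℕ => ((Exceptional.{u, v} K k d ∩ Box ω (k * (d + 1) + 1) H).ncard : ℝ) /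
          ((Box ω (k * (d + 1) + 1) H).ncard : ℝ)) atTop (𝓝 0)) ∧
    (k = 2 ∨ (d.Prime ∧ k ≤ d) → ∀ n : ℕ, 0 < n → (Small k d n ↔ ¬ d ∣ n)) := by
  have key : Pool.Agent.TH120.Sec.DZ (k * (d + 1) + 1) (Exceptional.{u, v} K k d) := by
    refine Pool.Agent.TH377.Dyn.DZ.mono (Pool.Agent.TH377.Hyp.dz_blocks K k d hd) ?_
    intro c hc hex
    obtain ⟨v, h1, h2, h3⟩ := hex
    exact good hk hd c v h1 h2 h3 hc
  refine ⟨⟨key, fun J _ ω => Pool.Agent.TH377.Dyn.box_tendsto _ key ω⟩, ?_⟩
  rintro (rfl | ⟨h1, h2⟩) n hn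
  · exact Pool.Agent.TH377.Hyp.small_two d n (by omega) hn
  · exact small_prime k d n h1 hk h2 hn

end Pool.Agent.Results.MP_9410e4_ag.DegreesOfPoints
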