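import Mathlib
import Pool.Agent.TH8.UNI.Arith

/-!
MP_9410e4_ag, Q1: a projective variety over a number field which contains, over the complex
numbers, a curve given by linear differential equations with polynomial coefficients and with a
Zariski-dense graph, is special and potentially dense.
-/

set_option autoImplicit false

namespace Pool.Agent.Results.MP_9410e4_ag.HolonomicDensity

open MvPolynomial Set
open Pool.Agent.TH143 Pool.Agent.TH143.GT Pool.Agent.TH8.TEN Pool.Agent.TH8.UNI

/-- Let `k` be a field with an embedding in `ℂ`, for instance a number field, and let `X` be the
projective variety over `k` given by the forms in `T`. Let `K`, `y` and `w` be the function field,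
the generic point and the dimension of the variety over `ℂ`. Assume that the variety over `ℂ`
contains a holomorphic curve `f`, over a nonempty connected open subset `Ω` of `ℂ`, whose
homogeneous coordinates satisfy nontrivial linear differential equations

- with polynomial coefficients, and the graph of `f` is Zariski-dense in the product of the affine
line and `X`, or
- over a differential ring `B` of holomorphic functions on `Ω`, and `f` is Zariski-dense over `B`.

Then `X` is special in the sense of Campana, and the points of `X` over some finite extension of
`k` are Zariski-dense. -/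
theorem result {n : ℕ} (k : Type) [Field k] [Algebra k ℂ]
    (T : Set (MvPolynomial (Fin (n + 1)) k)) (hT : ∀ G ∈ T, ∃ d, G.IsHomogeneous d) (K : Type)
    [Field K] [Algebra ℂ K] (w : ℕ) (y : Fin (n + 1) → K)
    (hy : FunField (Ideal.span (map (algebraMap k ℂ) '' T)) 1 K w y) (Ω : Set ℂ) (hΩ : IsOpen Ω)
    (hΩc : IsPreconnected Ω) (hne : Ω.Nonempty) (f : ℂ → Fin (n + 1) → ℂ)
    (hf : LinearCurve (Ideal.span (map (algebraMap k ℂ) '' T)) Ω f) :
    Special K w ∧ PotDense k (Ideal.span (map (algebraMap k ℂ) '' T)) := by
  have h := hf.uni hΩ hΩc hne hy
  exact ⟨(special_of_uni hy h).2, pot_dense k T hT rfl hy h⟩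

end Pool.Agent.Results.MP_9410e4_ag.HolonomicDensity
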